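import Pool.Agent.Y920.EP.Stm

set_option autoImplicit false

/-! Project EP, jobs EP-NG and EP-SYMM: norm groups of Kummer algebras. -/

namespace Pool.Agent.Y349.EP

open Polynomial Pool.Agent.Y920.EP

section NG

variable {F : Type} [Field F] {p : ℕ}

lemma ne0 (hp : 0 < p) (a : F) : (X ^ p - C a : F[X]) ≠ 0 := (monic_X_pow_sub_C a hp.ne').ne_zero

lemma root_pow (a : F) : (AdjoinRoot.root (X ^ p - C a)) ^ p =
    algebraMap F (AdjoinRoot (X ^ p - C a)) a := by
  have h := AdjoinRoot.mk_self (f := X ^ p - C a)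
  rw [map_sub, map_pow, AdjoinRoot.mk_X, AdjoinRoot.mk_C, sub_eq_zero] at h
  exact h

lemma finrank_eq (hp : 0 < p) (a : F) :
    Module.finrank F (AdjoinRoot (X ^ p - C a)) = p := by
  rw [(AdjoinRoot.powerBasis (ne0 hp a)).finrank, AdjoinRoot.powerBasis_dim,
    natDegree_X_pow_sub_C]

lemma norm_scalar (hp : 0 < p) (a x : F) :
    Algebra.norm F (algebraMap F (AdjoinRoot (X ^ p - C a)) x) = x ^ p := by
  rw [Algebra.norm_algebraMap_of_basis (AdjoinRoot.powerBasis (ne0 hp a)).basis,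
    Fintype.card_fin, AdjoinRoot.powerBasis_dim, natDegree_X_pow_sub_C]

lemma norm_sub_root (hp : 0 < p) (a c : F) :
    Algebra.norm F (algebraMap F (AdjoinRoot (X ^ p - C a)) c - AdjoinRoot.root _) =
      c ^ p - a := by
  have hm := AdjoinRoot.minpoly_powerBasis_gen_of_monic (monic_X_pow_sub_C a hp.ne')
    (ne0 hp a)
  have h1 := charpoly_leftMulMatrix (AdjoinRoot.powerBasis (ne0 hp a))
  rw [hm] at h1
  have h2 := congrArg (fun f : F[X] => f.eval c) h1
  simp only [eval_sub, eval_pow, eval_X, eval_C] at h2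
  rw [Algebra.norm_eq_matrix_det (AdjoinRoot.powerBasis (ne0 hp a)).basis, ← h2,
    Matrix.eval_charpoly]
  congr 1
  rw [map_sub, AlgHom.commutes]
  rfl

lemma norm_one_add (hp : Odd p) (a : F) :
    Algebra.norm F (1 + AdjoinRoot.root (X ^ p - C a)) = 1 + a := by
  have h1 := norm_sub_root hp.pos a (-1)
  have h2 : (1 + AdjoinRoot.root (X ^ p - C a)) =
      algebraMap F (AdjoinRoot (X ^ p - C a)) (-1) *
        (algebraMap F (AdjoinRoot (X ^ p - C a)) (-1) - AdjoinRoot.root _) := by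
    rw [map_neg, map_one]; ring
  rw [h2, map_mul, h1, norm_scalar hp.pos, hp.neg_one_pow]
  ring

/-- The isomorphism of the Kummer algebras of `a b^p` and `a`. -/
noncomputable def hom (a b c : F) (h : c = a * b ^ p) :
    AdjoinRoot (X ^ p - C c) →ₐ[F] AdjoinRoot (X ^ p - C a) :=
  AdjoinRoot.liftAlgHom (X ^ p - C c) (Algebra.ofId F _)
    (algebraMap F _ b * AdjoinRoot.root (X ^ p - C a)) (by
      change aeval _ _ = _
      rw [map_sub, map_pow, aeval_X, aeval_C, mul_pow, root_pow, h, map_mul, map_pow]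
      ring)

lemma hom_root (a b c : F) (h : c = a * b ^ p) :
    hom a b c h (AdjoinRoot.root _) = algebraMap F _ b * AdjoinRoot.root (X ^ p - C a) :=
  AdjoinRoot.liftAlgHom_root _ _ _ _

noncomputable def iso (a b c : F) (hb : b ≠ 0) (h : c = a * b ^ p) :
    AdjoinRoot (X ^ p - C c) ≃ₐ[F] AdjoinRoot (X ^ p - C a) :=
  AlgEquiv.ofAlgHom (hom a b c h) (hom c b⁻¹ a (by
      rw [h, mul_assoc, ← mul_pow, mul_inv_cancel₀ hb, one_pow, mul_one]))
    (by
      apply AdjoinRoot.algHom_ext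
      rw [AlgHom.comp_apply, hom_root, map_mul, hom_root, AlgHom.commutes, ← mul_assoc, ← map_mul,
        inv_mul_cancel₀ hb, map_one, one_mul, AlgHom.id_apply])
    (by
      apply AdjoinRoot.algHom_ext
      rw [AlgHom.comp_apply, hom_root, map_mul, hom_root, AlgHom.commutes, ← mul_assoc, ← map_mul,
        mul_inv_cancel₀ hb, map_one, one_mul, AlgHom.id_apply])

lemma nmG_le (a b c : Fˣ) (h : (c : F) = a * b ^ p) : nmG p c ≤ nmG p a := by
  rintro _ ⟨z, rfl⟩
  refine ⟨Units.map (iso (a : F) b c b.ne_zero h).toRingEquiv.toRingHom.toMonoidHom z, ?_⟩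
  ext
  exact Algebra.norm_eq_of_algEquiv (iso (a : F) b c b.ne_zero h) (z : AdjoinRoot (X ^ p - C (c : F)))

end NG

theorem t_NG : S_NG := by
  intro p hp hp2 F _
  have hodd : Odd p := hp.odd_of_ne_two hp2
  refine ⟨?_, ?_, ?_⟩
  · intro a x
    refine ⟨Units.map (algebraMap F (AdjoinRoot (X ^ p - C (a : F))) : F →* _) x, ?_⟩
    ext
    exact norm_scalar hp.pos _ _
  · intro u v huv
    have h1 : (1 + AdjoinRoot.root (X ^ p - C (u : F))) ∣
        algebraMap F (AdjoinRoot (X ^ p - C (u : F))) v := by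
      have h2 := hodd.add_dvd_pow_add_pow (1 : AdjoinRoot (X ^ p - C (u : F)))
        (AdjoinRoot.root (X ^ p - C (u : F)))
      rw [one_pow, root_pow, ← map_one (algebraMap F (AdjoinRoot (X ^ p - C (u : F)))), ← map_add,
        ← huv] at h2
      simpa using h2
    have h3 : IsUnit (1 + AdjoinRoot.root (X ^ p - C (u : F))) :=
      isUnit_of_dvd_unit h1 (v.isUnit.map _)
    refine ⟨h3.unit, ?_⟩
    ext
    rw [huv]
    exact norm_one_add hodd _
  · intro a b
    apply le_antisymm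
    · exact nmG_le a b (a * b ^ p) (by push_cast; rfl)
    · refine nmG_le (a * b ^ p) b⁻¹ a ?_
      rw [← Units.val_pow_eq_pow_val, ← Units.val_mul, inv_pow, mul_inv_cancel_right]

end Pool.Agent.Y349.EP
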