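import Pool.Agent.Y920.EP.Stm
import Pool.Agent.Y349.EP.NG

set_option autoImplicit false

/-! Project EP, job EP-SYMM: symmetry of the norm relation. -/

namespace Pool.Agent.Y349.EP

open Polynomial Pool.Agent.Y920.EP

section symm

variable {F : Type} [Field F] {p : ℕ}

lemma irr (hp : p.Prime) (a : Fˣ) (ha : a ∉ pwG F p) : Irreducible (X ^ p - C (a : F)) := by
  apply X_pow_sub_C_irreducible_of_prime hp
  intro b hb
  apply ha
  have hb0 : b ≠ 0 := by
    rintro rfl
    rw [zero_pow hp.ne_zero] at hb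
    exact a.ne_zero hb.symm
  exact ⟨Units.mk0 b hb0, Units.ext hb⟩

/-- The norm is the product of the conjugates. -/
lemma norm_prod (hp : p.Prime) (a ζ : F) (hζ : IsPrimitiveRoot ζ p)
    (H : Irreducible (X ^ p - C a)) (g : F[X]) :
    algebraMap F (AdjoinRoot (X ^ p - C a))
      (Algebra.norm F (aeval (AdjoinRoot.root (X ^ p - C a)) g)) =
    ∏ i ∈ Finset.range p, aeval (ζ ^ i • AdjoinRoot.root (X ^ p - C a)) g := by
  have := Fact.mk H
  have : NeZero p := ⟨hp.ne_zero⟩
  have hne : (primitiveRoots p F).Nonempty := ⟨ζ, (mem_primitiveRoots hp.pos).mpr hζ⟩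
  have := isSplittingField_AdjoinRoot_X_pow_sub_C hne H
  have := isGalois_of_isSplittingField_X_pow_sub_C hne H (AdjoinRoot (X ^ p - C a))
  have : FiniteDimensional F (AdjoinRoot (X ^ p - C a)) :=
    (AdjoinRoot.powerBasis (ne0 hp.pos a)).finite
  rw [Algebra.norm_eq_prod_automorphisms]
  let e := autEquivZmod H (AdjoinRoot (X ^ p - C a)) hζ
  have h1 : ∏ σ : Gal(AdjoinRoot (X ^ p - C a)/F), σ (aeval (AdjoinRoot.root (X ^ p - C a)) g) =
      ∏ c : ZMod p, (e.symm (Multiplicative.ofAdd c)) (aeval (AdjoinRoot.root (X ^ p - C a)) g) :=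
    (Fintype.prod_equiv (Multiplicative.ofAdd.trans e.symm.toEquiv) _ _ fun c => rfl).symm
  rw [h1]
  symm
  refine Finset.prod_nbij' (fun i : ℕ => (i : ZMod p)) ZMod.val (fun _ _ => Finset.mem_univ _)
    (fun c _ => Finset.mem_range.mpr (ZMod.val_lt c))
    (fun i hi => ZMod.val_natCast_of_lt (Finset.mem_range.mp hi))
    (fun c _ => ZMod.natCast_zmod_val c) ?_
  intro i _
  rw [← autEquivZmod_symm_apply_natCast H (AdjoinRoot (X ^ p - C a)) (root_pow a) hζ i]
  exact (Polynomial.aeval_algHom_apply (e.symm (Multiplicative.ofAdd (i : ZMod p))).toAlgHom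
    (AdjoinRoot.root (X ^ p - C a)) g)

/-- The automorphism. -/
noncomputable def sh (a ζ : F) (h : ζ ^ p = 1) :
    AdjoinRoot (X ^ p - C a) →ₐ[F] AdjoinRoot (X ^ p - C a) :=
  AdjoinRoot.liftAlgHom (X ^ p - C a) (Algebra.ofId F _)
    (ζ • AdjoinRoot.root (X ^ p - C a)) (by
      change aeval _ _ = _
      rw [map_sub, map_pow, aeval_X, aeval_C, _root_.smul_pow, root_pow, h, one_smul, sub_self])

lemma sh_root (a ζ : F) (h : ζ ^ p = 1) :
    sh a ζ h (AdjoinRoot.root _) = ζ • AdjoinRoot.root (X ^ p - C a) :=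
  AdjoinRoot.liftAlgHom_root _ _ _ _

lemma sh_iter (a ζ : F) (h : ζ ^ p = 1) (i : ℕ) (g : F[X]) :
    (sh a ζ h)^[i] (aeval (AdjoinRoot.root (X ^ p - C a)) g) =
      aeval (ζ ^ i • AdjoinRoot.root (X ^ p - C a)) g := by
  induction i with
  | zero => rw [Function.iterate_zero_apply, pow_zero, one_smul]
  | succ i ih =>
    rw [Function.iterate_succ_apply', ih, ← Polynomial.aeval_algHom_apply, map_smul, sh_root,
      smul_smul, pow_succ]

lemma aeval_surj (a : F) (x : AdjoinRoot (X ^ p - C a)) :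
    ∃ g : F[X], aeval (AdjoinRoot.root (X ^ p - C a)) g = x := by
  obtain ⟨g, rfl⟩ := AdjoinRoot.mk_surjective x
  exact ⟨g, AdjoinRoot.aeval_eq g⟩

lemma iter_mul {L : Type} [CommRing L] [Algebra F L] (s : L →ₐ[F] L) (n : ℕ) (x y : L) :
    s^[n] (x * y) = s^[n] x * s^[n] y := by
  induction n with
  | zero => rfl
  | succ n ih => rw [Function.iterate_succ_apply', ih, map_mul, ← Function.iterate_succ_apply' s,
      ← Function.iterate_succ_apply' s]

/-- Powers of the twisted operator. -/
lemma Y_pow {L : Type} [CommRing L] [Algebra F L] (s : L →ₐ[F] L) (z : L) (Y : Module.End F L)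
    (hY : ∀ x, Y x = z * s x) (n : ℕ) (x : L) :
    (Y ^ n) x = (∏ i ∈ Finset.range n, s^[i] z) * s^[n] x := by
  induction n with
  | zero => rw [pow_zero, Finset.prod_range_zero, one_mul]; rfl
  | succ n ih =>
    rw [pow_succ', Module.End.mul_apply, ih, hY, map_mul, Finset.prod_range_succ', map_prod,
      Function.iterate_succ_apply']
    simp only [Function.iterate_succ_apply', Function.iterate_zero_apply]
    ring

/-- Intertwining. -/
lemma intertwine {L : Type} [AddCommGroup L] [Module F L] (f Y Y' : Module.End F L)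
    (h : ∀ x, f (Y x) = Y' (f x)) (g : F[X]) (x : L) : f (aeval Y g x) = aeval Y' g (f x) := by
  have hn : ∀ (n : ℕ) (x : L), f ((Y ^ n) x) = (Y' ^ n) (f x) := by
    intro n
    induction n with
    | zero => intro x; rfl
    | succ n ih =>
      intro x
      rw [pow_succ', Module.End.mul_apply, h, ih, pow_succ', Module.End.mul_apply]
  induction g using Polynomial.induction_on' with
  | add g1 g2 h1 h2 => rw [map_add, map_add, LinearMap.add_apply, LinearMap.add_apply, map_add,
      h1, h2]
  | monomial n c =>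
    rw [aeval_monomial, aeval_monomial, Module.End.mul_apply, Module.End.mul_apply,
      Module.algebraMap_end_apply, Module.algebraMap_end_apply, map_smul, hn]

/-- The module generated by one vector. -/
lemma dvd_of_zero {L : Type} [Field L] [Algebra F L] (Y : Module.End F L) (q : F[X])
    (hq : Irreducible q) (h : ∀ x, aeval Y q x = 0) (g : F[X]) (hg : aeval Y g 1 = 0) : q ∣ g := by
  by_contra hd
  obtain ⟨u, v, huv⟩ := (hq.coprime_iff_not_dvd).mpr hd
  have h1 := congrArg (fun f : F[X] => aeval Y f (1 : L)) huv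
  simp only [map_add, map_mul, map_one, LinearMap.add_apply, Module.End.mul_apply, h, hg,
    map_zero, add_zero, Module.End.one_apply] at h1
  exact zero_ne_one h1

lemma exists_poly {L : Type} [Field L] [Algebra F L] (Y : Module.End F L) (hp : 0 < p) (b : F)
    (hq : Irreducible (X ^ p - C b)) (h : ∀ x, aeval Y (X ^ p - C b) x = 0)
    (hL : Module.finrank F L = p) (x : L) : ∃ g : F[X], aeval Y g 1 = x := by
  let ev : Polynomial.degreeLT F p →ₗ[F] L :=
    { toFun := fun g => aeval Y (g : F[X]) 1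
      map_add' := fun g g' => by
        rw [Submodule.coe_add, map_add, LinearMap.add_apply]
      map_smul' := fun c g => by
        rw [Submodule.coe_smul, map_smul, LinearMap.smul_apply, RingHom.id_apply] }
  have hinj : Function.Injective ev := by
    rw [← LinearMap.ker_eq_bot, LinearMap.ker_eq_bot']
    intro g hg
    have h1 := dvd_of_zero Y _ hq h g hg
    apply Subtype.ext
    refine Polynomial.eq_zero_of_dvd_of_degree_lt h1 ?_
    rw [degree_X_pow_sub_C hp]
    exact Polynomial.mem_degreeLT.mp g.2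
  have hfd : FiniteDimensional F L := Module.finite_of_finrank_pos (by rw [hL]; exact hp)
  have hfd' : FiniteDimensional F (Polynomial.degreeLT F p) :=
    Module.Finite.equiv (Polynomial.degreeLTEquiv F p).symm
  have hdim : Module.finrank F (Polynomial.degreeLT F p) = Module.finrank F L := by
    rw [hL, (Polynomial.degreeLTEquiv F p).finrank_eq, Module.finrank_fin_fun]
  obtain ⟨g, hg⟩ := (LinearMap.injective_iff_surjective_of_finrank_eq_finrank hdim).mp hinj x
  exact ⟨g, hg⟩

end symm

theorem t_SYMM : S_SYMM := by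
  intro p hp hp2 F _ ζ hζ a b ha hb hba
  obtain ⟨z, hz⟩ := hba
  have Ha := irr hp a ha
  have Hb := irr hp b hb
  have := Fact.mk Ha
  have := Fact.mk Hb
  have hζ0 : ζ ≠ 0 := hζ.ne_zero hp.ne_zero
  set L := AdjoinRoot (X ^ p - C (a : F)) with hL
  set α : L := AdjoinRoot.root (X ^ p - C (a : F)) with hα
  let s : L →ₐ[F] L := sh (a : F) ζ hζ.pow_eq_one
  let Y : Module.End F L := (LinearMap.mulLeft F (z : L)) * s.toLinearMap
  have hY : ∀ x, Y x = (z : L) * s x := fun x => rfl
  have hsp : ∀ x : L, s^[p] x = x := by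
    intro x
    obtain ⟨g, rfl⟩ := aeval_surj (a : F) x
    rw [sh_iter, hζ.pow_eq_one, one_smul]
  have hnz : ∏ i ∈ Finset.range p, s^[i] (z : L) = algebraMap F L b := by
    obtain ⟨g, hg⟩ := aeval_surj (a : F) (z : L)
    have h1 := norm_prod hp (a : F) ζ hζ Ha g
    have h2 : Algebra.norm F (z : L) = b := congrArg Units.val hz
    rw [hg, h2] at h1
    rw [h1]
    refine Finset.prod_congr rfl fun i _ => ?_
    rw [← hg, sh_iter]
  have hYp : ∀ x, aeval Y (X ^ p - C (b : F)) x = 0 := by
    intro x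
    rw [map_sub, map_pow, aeval_X, aeval_C, LinearMap.sub_apply, Y_pow s z Y hY, hnz, hsp,
      Module.algebraMap_end_apply, Algebra.smul_def, sub_self]
  obtain ⟨g, hg⟩ := exists_poly Y hp.pos (b : F) Hb hYp (finrank_eq hp.pos _) α
  -- the twisted commutation relation
  have hrel : ∀ x, LinearMap.mulLeft F α (Y x) = (ζ⁻¹ • Y) (LinearMap.mulLeft F α x) := by
    intro x
    have h1 : s α = ζ • α := sh_root _ _ _
    rw [LinearMap.mulLeft_apply, LinearMap.mulLeft_apply, LinearMap.smul_apply, hY, hY, map_mul,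
      h1, smul_mul_assoc, mul_smul_comm, smul_smul, inv_mul_cancel₀ hζ0, one_smul]
    ring
  have hcomm : ∀ (h : F[X]) (x : L), α * aeval Y h x =
      aeval Y (h.comp (C ζ⁻¹ * X)) (α * x) := by
    intro h x
    have h1 := intertwine (LinearMap.mulLeft F α) Y (ζ⁻¹ • Y) hrel h x
    rw [LinearMap.mulLeft_apply, LinearMap.mulLeft_apply] at h1
    have h2 : aeval Y (C ζ⁻¹ * X) = ζ⁻¹ • Y := by
      rw [map_mul, aeval_C, aeval_X, Algebra.smul_def]
    rw [h1, aeval_comp, h2]
  have hpow : ∀ n : ℕ, α ^ n =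
      aeval Y (∏ i ∈ Finset.range n, g.comp (C (ζ⁻¹ ^ i) * X)) 1 := by
    intro n
    induction n with
    | zero =>
      have h1 : aeval Y (1 : F[X]) = 1 := map_one _
      rw [pow_zero, Finset.prod_range_zero, h1]; rfl
    | succ n ih =>
      rw [pow_succ', ih, hcomm, mul_one, ← hg, ← Module.End.mul_apply, ← map_mul,
        Finset.prod_range_succ', Polynomial.prod_comp]
      congr 3
      · refine Finset.prod_congr rfl fun i _ => ?_
        rw [comp_assoc, mul_comp, C_comp, X_comp, ← mul_assoc, ← C_mul, pow_succ]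
      · rw [pow_zero, C_1, one_mul, comp_X]
  have hdiv : (X ^ p - C (b : F)) ∣
      (∏ i ∈ Finset.range p, g.comp (C (ζ⁻¹ ^ i) * X)) - C (a : F) := by
    apply dvd_of_zero Y _ Hb hYp
    rw [map_sub, LinearMap.sub_apply, ← hpow, aeval_C, Module.algebraMap_end_apply, hα, root_pow,
      Algebra.smul_def, mul_one, sub_self]
  have hE : ∏ i ∈ Finset.range p, aeval (ζ⁻¹ ^ i • AdjoinRoot.root (X ^ p - C (b : F))) g =
      algebraMap F (AdjoinRoot (X ^ p - C (b : F))) a := by
    have h1 : aeval (AdjoinRoot.root (X ^ p - C (b : F)))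
        ((∏ i ∈ Finset.range p, g.comp (C (ζ⁻¹ ^ i) * X)) - C (a : F)) = 0 := by
      rw [AdjoinRoot.aeval_eq]
      exact AdjoinRoot.mk_eq_zero.mpr hdiv
    rw [map_sub, aeval_C, sub_eq_zero, map_prod] at h1
    rw [← h1]
    refine Finset.prod_congr rfl fun i _ => ?_
    rw [aeval_comp, map_mul, aeval_C, aeval_X, Algebra.smul_def]
  have hnorm : Algebra.norm F (aeval (AdjoinRoot.root (X ^ p - C (b : F))) g) = a := by
    have h1 := norm_prod hp (b : F) ζ⁻¹ hζ.inv Hb g
    rw [hE] at h1
    exact (algebraMap F (AdjoinRoot (X ^ p - C (b : F)))).injective h1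
  have hunit : IsUnit (aeval (AdjoinRoot.root (X ^ p - C (b : F))) g) := by
    rw [isUnit_iff_ne_zero]
    intro h0
    rw [h0] at hnorm
    have h2 : Algebra.norm F (0 : AdjoinRoot (X ^ p - C (b : F))) = 0 := by
      have : FiniteDimensional F (AdjoinRoot (X ^ p - C (b : F))) :=
        (AdjoinRoot.powerBasis (ne0 hp.pos (b : F))).finite
      exact Algebra.norm_zero
    rw [h2] at hnorm
    exact a.ne_zero hnorm.symm
  refine ⟨hunit.unit, ?_⟩
  ext
  exact hnorm

end Pool.Agent.Y349.EP
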